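import Pool.Agent.H97.PK.Targets

/-!
pk_modules RNK (MP_9d526a_co): embedded configurations have joint rank at most `2d` and stay
contractions.
-/

set_option autoImplicit false

namespace Pool.Agent.H42.PK

open Pool.Agent.H97.PK
open Set

/-- the linear map `y ↦ (y, 0)` -/
noncomputable def embL (d m : ℕ) : E d →ₗ[ℝ] E (d + m) where
  toFun := emb m
  map_add' x y := by
    ext i
    refine Fin.addCases (fun i => ?_) (fun i => ?_) i <;> simp [emb, pr]
  map_smul' c x := by
    ext i
    refine Fin.addCases (fun i => ?_) (fun i => ?_) i <;> simp [emb, pr]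

lemma embL_apply (d m : ℕ) (x : E d) : embL d m x = emb m x := rfl

lemma norm_emb (d m : ℕ) (x : E d) : ‖emb m x‖ = ‖x‖ := by
  have h : ‖emb m x‖ ^ 2 = ‖x‖ ^ 2 := by
    rw [EuclideanSpace.real_norm_sq_eq, EuclideanSpace.real_norm_sq_eq, Fin.sum_univ_add]
    simp [emb, pr]
  exact (sq_eq_sq₀ (norm_nonneg _) (norm_nonneg _)).1 h

lemma dist_emb (d m : ℕ) (x y : E d) : dist (emb m x) (emb m y) = dist x y := by
  rw [dist_eq_norm, dist_eq_norm, ← embL_apply, ← embL_apply, ← map_sub, embL_apply, norm_emb]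

theorem pf_rnk : T_RNK := by
  intro d m ι _ p q
  refine ⟨?_, fun h i j => ?_⟩
  · set f : (E d × E d) →ₗ[ℝ] (E (d + m) × E (d + m)) := (embL d m).prodMap (embL d m) with hf
    have hsub : vectorSpan ℝ (range fun i => (emb m (p i), emb m (q i))) ≤ LinearMap.range f := by
      rw [vectorSpan_def, Submodule.span_le]
      rintro _ ⟨_, ⟨i, rfl⟩, _, ⟨j, rfl⟩, rfl⟩
      refine ⟨(p i, q i) - (p j, q j), ?_⟩
      rw [map_sub]
      rfl
    refine (Submodule.finrank_mono hsub).trans ((LinearMap.finrank_range_le f).trans ?_)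
    simp
  · simp only [dist_emb]
    exact h i j

end Pool.Agent.H42.PK
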