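import Pool.Agent.H97.PK.Targets

/-!
pk_modules DIS (MP_9d526a_co): open cells are open and disjoint.
-/

set_option autoImplicit false

namespace Pool.Agent.H42.PK

open Pool.Agent.H97.PK
open Set MeasureTheory Metric

theorem pf_dis : T_DIS := by
  intro d ι _ p b
  have hopen : ∀ i, IsOpen (cell p b i) := by
    intro i
    have h : cell p b i = ⋂ j : ι, {y | j ≠ i → ‖y - p i‖ ^ 2 - b i < ‖y - p j‖ ^ 2 - b j} := by
      ext y; simp [cell]
    rw [h]
    refine isOpen_iInter_of_finite fun j => ?_
    by_cases hj : j = i
    · simp [hj]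
    · simp only [ne_eq, hj, not_false_eq_true, forall_true_left]
      exact isOpen_lt (by fun_prop) (by fun_prop)
  refine ⟨hopen, fun S r => ?_⟩
  rw [← measure_biUnion_finset]
  · refine measure_mono ?_
    refine iUnion₂_subset fun i _ => ?_
    refine inter_subset_right.trans (ball_subset_closedBall.trans ?_)
    exact subset_iUnion (fun i => closedBall (p i) (r i)) i
  · intro i _ j _ hij
    refine Set.disjoint_left.2 fun y hy hy' => ?_
    have h1 := hy.1 j (Ne.symm hij)
    have h2 := hy'.1 i hij
    exact lt_asymm h1 h2
  · intro i _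
    exact (hopen i).measurableSet.inter measurableSet_ball

end Pool.Agent.H42.PK
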